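import Mathlib
import Pool.Agent.X181.Exist

/-!
# MP_5c1318_gt: no real hypersurface of the complex two-plane Grassmannian or of its
non-compact dual has its Reeb field `ξ` in a `(κ,μ,ν)`-nullity distribution
-/

namespace Pool.Agent.Results.MP_5c1318_gt.NoNullityReeb

open Pool.Agent.X181 Matrix
open scoped ContDiff Matrix.Norms.Elementwise

/-- Let `m ≥ 3`, and let `f : U → (space of projectors)` be a real hypersurface of
`G₂(ℂ^(m+2))` (`s = 1`) or of `SU(2,m)/S(U(2) × U(m))` (`s = -1`), with unit normal `N`,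
Levi-Civita connection `Γ`, shape operator `A`, and `(ξ, φ)` the structure induced by the Kähler
structure `J`. Then at no point `x` of `U` does
`R(X,Y)ξ = κ(η(Y)X - η(X)Y) + μ(η(Y)AX - η(X)AY) + ν(η(Y)φAX - η(X)φAY)` hold for all `X, Y`,
whatever the real numbers `κ, μ, ν`; this covers the `κ`-, the `(κ,μ)`- and the
`(κ,μ,ν)`-nullity conditions. -/
theorem result {m : ℕ} (hm : 3 ≤ m) {s : ℝ} (hs : s = 1 ∨ s = -1)
    {E : Type*} [NormedAddCommGroup E] [NormedSpace ℝ E]
    {U : Set E} {f N : E → Mat m} (hM : IsHypersurface s U f N)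
    {Γ : E → E →L[ℝ] E →L[ℝ] E} (hΓ : IsLeviCivita U (indMet s f) Γ)
    {A : E → E →ₗ[ℝ] E} (_hA : IsShape s U f N A)
    {ξ : E → E} {φ : E → E →ₗ[ℝ] E} (hI : IsInduced s U f N (fun x => Jop (f x)) ξ φ)
    (κ μ ν : E → ℝ) :
    ∀ x ∈ U, ¬ ∀ X Y : E, Riem Γ x X Y (ξ x) =
      κ x • (indMet s f x Y (ξ x) • X - indMet s f x X (ξ x) • Y)
      + μ x • (indMet s f x Y (ξ x) • A x X - indMet s f x X (ξ x) • A x Y)
      + ν x • (indMet s f x Y (ξ x) • φ x (A x X) - indMet s f x X (ξ x) • φ x (A x Y)) := by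
  intro x hx hnull
  have hP := hM.mem x hx
  have hN := hM.tanN x hx
  have hξ := hI.xi x hx
  have hkill : ∀ e : Col m, f x * e = 0 → N x * e = 0 → fderiv ℝ f x (ξ x) * e = 0 := by
    intro e he hNe
    rw [hξ]
    exact neg_kill (Jop_kill he hNe)
  have hself : indMet s f x (ξ x) (ξ x) = 1 := by
    unfold indMet
    rw [hξ, met_neg_neg, Jop_met_self hP hN, hM.unitN x hx]
  obtain ⟨a, b, ha, hb, hR⟩ := key hM hs hm hΓ hx (ξ x) hkill (by rw [hself]; exact one_ne_zero)
    (tan_df hM hx (ξ x)) hkill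
  apply hR
  rw [hnull a b]
  have ha' : indMet s f x a (ξ x) = 0 := ha
  have hb' : indMet s f x b (ξ x) = 0 := hb
  rw [ha', hb']
  simp

end Pool.Agent.Results.MP_5c1318_gt.NoNullityReeb
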